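import Pool.Agent.H41.Semi.Final

/-!
Semi-extensions of circuits in cubic graphs.

Let `G` be a 2-connected cubic graph, `C` a circuit of `G`, and let `P` be either empty or a
`C`-path.  If at most one component of `G - V(C ∪ P)` has neighbours at three or more vertices of
`C`, then `C` has a semi-extension `D` that contains `P` and for which `C △ D` is a circuit.
For `P` empty this follows from results of Fleischner and of Chan, Chudnovsky and Seymour on
extensions; the case of a `C`-path covers for instance all circuits of length `n - 2`, which need
not have an extension.

The proof is a parity argument: the pairs of circuits `(D, J)` with `C = D △ J` are encoded by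
closed tours of the 4-regular graph obtained from `C` by contracting the chords of `C`, and the
number of admissible tours is shown to be odd.
-/

namespace Pool.Agent.Results.MP_7794fd_co.OneLargeBridge

open Pool.Agent.H41.Semi

theorem result {V E : Type} [Fintype V] [DecidableEq V] [Fintype E] [DecidableEq E]
    (G : MGraph V E) (hcubic : G.Cubic) (h2 : G.TwoConnected) (C : Finset E)
    (hC : G.IsCircuit C) (P : Finset E) (hP : P = ∅ ∨ G.IsCPath C P)
    (hone : ∀ w w', w ∉ G.vts (C ∪ P) → w' ∉ G.vts (C ∪ P) →
      3 ≤ (G.nbs C P w).ncard → 3 ≤ (G.nbs C P w').ncard → G.Reach (G.vts (C ∪ P)) w w') :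
    ∃ D : Finset E, G.IsSemiExtension C D ∧ G.IsCircuit (symmDiff C D) ∧ P ⊆ D :=
  MGraph.semi_main hcubic h2 hC P hP hone

end Pool.Agent.Results.MP_7794fd_co.OneLargeBridge
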